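import Pool.Agent.Lib_MP_8da2c8_full.Main

/-!
MP_8da2c8_lc, Q1: a positive answer.

Let `l` (`λ`) be a regular uncountable cardinal with `2 ^ l = l⁺`, `κ = l⁺`, and let `K` be the
canonical well-order of type `κ`.  Let `T` be a stable but not superstable theory in a countable
relational language.  Then for every `S ⊆ κ` the relation of equality on `S` modulo the
nonstationary ideal of `κ` is Borel reducible to the isomorphism relation of `T` on `2^κ`; for
`S = {α < κ : cf α = λ}` this is Q1.

The coding of structures with universe `κ` by elements of `2^κ` may be given by any injection `π` of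
the set of all `(n, r, x)`, `r` an `n`-ary relation symbol and `x` an `n`-tuple of elements of `κ`,
into `κ`.  `T` is not required to be complete.
-/

namespace Pool.Agent.Results.MP_8da2c8_lc.StableUnsuperstable

open Cardinal Set FirstOrder MP8da MP8f

universe u

theorem kok (l : Cardinal.{u}) (hl : ℵ₀ ≤ l) (h2 : (2 : Cardinal.{u}) ^ l = Order.succ l) :
    KOK l (Order.succ l).ord.ToType where
  inf := hl
  card := by simp
  init := fun a => by
    have h := Cardinal.mk_Iio_toType_ord_lt a
    exact Order.lt_succ_iff.1 h
  gch := h2

theorem result (l : Cardinal.{u}) (hreg : l.IsRegular) (hunc : ℵ₀ < l)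
    (h2 : (2 : Cardinal.{u}) ^ l = Order.succ l) (L : FirstOrder.Language.{0, 0})
    [L.IsRelational] [Countable (Σ n, L.Relations n)] (T : L.Theory) (hs : Stable.{u} T)
    (hn : ¬ Superstable.{u} T)
    (π : Atoms L (Order.succ l).ord.ToType ↪ (Order.succ l).ord.ToType)
    (S : Set (Order.succ l).ord.ToType) :
    BorelRed (EqNS S) (IsomT T π) := by
  haveI : Countable L.Symbols := by
    have h : Countable ((Σ n, L.Functions n) ⊕ (Σ n, L.Relations n)) := inferInstance
    exact h
  exact main (kok l hunc.le h2) hreg hunc T hs hn S π

end Pool.Agent.Results.MP_8da2c8_lc.StableUnsuperstable
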